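import Pool.Agent.helper54.HC.TDefs

/-!
# Tate classes on abelian varieties of CM type: definitions

`A = W ⧸ Lam` is a complex torus of CM type (`CMData`, in `Pool/Agent/helper54/HC/TDefs.lean`): `W = ∏ ℂ^Φ_j`,
`ℚ Lam = ∏ K_j`, `K_j` CM fields and `Φ_j` CM types.
-/

namespace Pool.Agent.HC.Tate

open scoped Matrix ComplexConjugate Classical NumberField TensorProduct
open NumberField

noncomputable section

attribute [instance] CMData.field CMData.nf

variable {W : Type} [NormedAddCommGroup W] [NormedSpace ℂ W] {Lam : AddSubgroup W}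

/-! ## Rational cohomology and homology of the torus -/

/-- the coordinate of `w ∈ W = ∏ ℂ^Φ_j` at the embedding `φ ∈ Φ_j` -/
def coord (C : CMData W Lam) (w : W) (j : Fin C.r) (φ : C.Φ j) : ℂ := C.e w j φ

/-- `w' = t w`: an element `t ∈ ∏ K_j` acts on the coordinate at `φ ∈ Φ_j` as multiplication by `φ(t_j)` -/
def IsMul (C : CMData W Lam) (t : ∀ j, C.K j) (w w' : W) : Prop :=
  ∀ (j : Fin C.r) (φ : C.Φ j), coord C w' j φ = (φ : C.K j →+* ℂ) (t j) * coord C w j φ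

/-- `w ∈ ℚ Lam` is the point with coordinates `x ∈ ∏ K_j` -/
def IsPoint (C : CMData W Lam) (x : ∀ j, C.K j) (w : W) : Prop :=
  ∀ (j : Fin C.r) (φ : C.Φ j), coord C w j φ = (φ : C.K j →+* ℂ) (x j)

/-- `H^k(A, ℚ)`: the constant real alternating `k`-forms on `W` with rational values on the lattice -/
def Coh (Lam : AddSubgroup W) (k : ℕ) : Submodule ℚ (W [⋀^Fin k]→ₗ[ℝ] ℝ) where
  carrier := {η | IsRat Lam η}
  add_mem' := by
    intro η η' h h' v hv
    obtain ⟨q, hq⟩ := h v hv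
    obtain ⟨q', hq'⟩ := h' v hv
    exact ⟨q + q', by rw [AlternatingMap.add_apply, hq, hq', Rat.cast_add]⟩
  zero_mem' := fun v _ => ⟨0, by simp⟩
  smul_mem' := by
    intro c η h v hv
    obtain ⟨q, hq⟩ := h v hv
    exact ⟨c * q, by rw [AlternatingMap.smul_apply, hq, Rat.smul_def, Rat.cast_mul]⟩

/-- the value of a rational form -/
def val {k : ℕ} (η : Coh Lam k) (v : Fin k → W) : ℝ := η.1 v

/-- `H_k(A, R) = Hom(H^k(A, ℚ), R)` -/
def Hmg (Lam : AddSubgroup W) (k : ℕ) (R : Type) [Field R] [CharZero R] : Type :=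
  Coh Lam k →ₗ[ℚ] R

/-- the pairing of homology and cohomology -/
def Hmg.at {k : ℕ} {R : Type} [Field R] [CharZero R] (ξ : Hmg Lam k R) (η : Coh Lam k) : R :=
  DFunLike.coe (F := Coh Lam k →ₗ[ℚ] R) ξ η

/-- `ξ ∈ H_{2a}(A, R)` is an `R`-linear combination of classes of holomorphic maps of compact ball
quotients of dimension `a` to `A` -/
def IsAlg (Lam : AddSubgroup W) (a : ℕ) {R : Type} [Field R] [CharZero R]
    (ξ : Hmg Lam (2 * a) R) : Prop :=
  ∃ (m : ℕ) (r : Fin m → R) (M : Fin m → BallQuotient a) (f : Fin m → (Fin a → ℂ) → W),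
    (∀ i, IsMap (M i) Lam (f i)) ∧ ∀ η : Coh Lam (2 * a), ∃ q : Fin m → ℚ,
      (∀ i, cls (M i) (f i) η.1 = q i) ∧ ξ.at η = ∑ i, r i * (q i : R)

/-! ## Frobenius elements -/

/-- every embedding of every `K_j` in `ℂ` factors through `ι : L → ℂ` -/
def Split (C : CMData W Lam) {L : Type} [Field L] (ι : L →+* ℂ) : Prop :=
  ∀ (j : Fin C.r) (φ : C.K j →+* ℂ), ∃ ψ : C.K j →+* L, ι.comp ψ = φ

/-- the ideal `∏ σ⁻¹ P` of `L`, product over the `σ ∈ Gal(L/ℚ)` with `ι ∘ σ ∘ ψ ∈ Φ` -/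
def typeNm {K L : Type} [Field K] [Field L] [NumberField L] (Φ : Set (K →+* ℂ)) (ι : L →+* ℂ)
    (ψ : K →+* L) (P : Ideal (𝓞 L)) : Ideal (𝓞 L) :=
  ∏ σ : L ≃ₐ[ℚ] L, if ι.comp ((σ : L →+* L).comp ψ) ∈ Φ then
    P.comap (RingOfIntegers.mapRingHom (σ : L →+* L)) else 1

/-- `t ∈ ∏ K_j` is, up to roots of unity, the `n`-th power of the Frobenius at the prime `P` of `L`:
integrality, absolute values (Weil), prime ideal decomposition (Shimura and Taniyama) -/
structure IsFrb (C : CMData W Lam) {L : Type} [Field L] [NumberField L] (ι : L →+* ℂ)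
    (P : Ideal (𝓞 L)) (n : ℕ) (t : ∀ j, C.K j) : Prop where
  int : ∀ j, IsIntegral ℤ (t j)
  weil : ∀ (j : Fin C.r) (φ : C.K j →+* ℂ), φ (t j) * conj (φ (t j)) = (Ideal.absNorm P : ℂ) ^ n
  st : ∀ (j : Fin C.r) (ψ : C.K j →+* L) (x : 𝓞 L), (x : L) = ψ (t j) →
    Ideal.span {x} = typeNm (C.Φ j) ι ψ P ^ n

/-- for all but finitely many primes of `L` -/
def AlmostAll (L : Type) [Field L] (p : Ideal (𝓞 L) → Prop) : Prop :=
  ∃ B : Set (Ideal (𝓞 L)), B.Finite ∧ ∀ P : Ideal (𝓞 L), P.IsPrime → P ≠ ⊥ → P ∉ B → p P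

/-! ## Tate classes, in terms of Frobenius elements -/

/-- the endomorphism `t` acts on the homology class `ξ` as multiplication by `c` -/
def Acts (C : CMData W Lam) {k : ℕ} {R : Type} [Field R] [CharZero R] (ξ : Hmg Lam k R)
    (t : ∀ j, C.K j) (c : R) : Prop :=
  ∀ η η' : Coh Lam k,
    (∀ v v' : Fin k → W, (∀ i, IsMul C t (v i) (v' i)) → val η' v = val η v') →
    ξ.at η' = c * ξ.at η

/-- `ξ ∈ H_{2a}(A, R)` is a Tate class (over a finite extension of the field of definition): there is a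
number field `L`, Galois over `ℚ` and containing the conjugates of the `K_j`, such that for almost all
primes `P` of `L` and all `n > 0`, every `t` which is up to roots of unity the `n`-th power of the
Frobenius at `P` (`IsFrb`) acts on `ξ` as `N(P)^(na)`, up to replacing `t` by a power `t^N`. -/
def IsTateCl (C : CMData W Lam) (a : ℕ) {R : Type} [Field R] [CharZero R]
    (ξ : Hmg Lam (2 * a) R) : Prop :=
  ∃ (L : Type) (_ : Field L) (_ : NumberField L) (ι : L →+* ℂ), IsGalois ℚ L ∧ Split C ι ∧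
    AlmostAll L fun P => ∀ (n : ℕ) (t : ∀ j, C.K j), 0 < n → IsFrb C ι P n t →
      ∃ N : ℕ, 0 < N ∧ Acts C ξ (fun j => t j ^ N) ((Ideal.absNorm P : R) ^ (n * a * N))

/-! ## Galois representations -/

/-- the absolute Galois group of `L` -/
def Gal (L : Type) [Field L] : Type := AlgebraicClosure L ≃ₐ[L] AlgebraicClosure L

instance (L : Type) [Field L] : Group (Gal L) := AlgEquiv.aut

/-- the action on the algebraic closure -/
def Gal.act {L : Type} [Field L] (σ : Gal L) (x : AlgebraicClosure L) : AlgebraicClosure L :=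
  DFunLike.coe (F := AlgebraicClosure L ≃ₐ[L] AlgebraicClosure L) σ x

/-- the ring of all algebraic integers -/
abbrev AInt (L : Type) [Field L] : Type := integralClosure ℤ (AlgebraicClosure L)

/-- `σ` is a Frobenius element over the prime `P` of `L`: there is a prime `Q` over `P` of the ring of all
algebraic integers with `σ x ≡ x^N(P)` modulo `Q` for all algebraic integers `x` -/
def IsFrobOver {L : Type} [Field L] [NumberField L] (P : Ideal (𝓞 L)) (σ : Gal L) : Prop :=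
  ∃ Q : Ideal (AInt L), Q.IsPrime ∧
    (∀ (x : 𝓞 L) (y : AInt L), (y : AlgebraicClosure L) = algebraMap L (AlgebraicClosure L) x →
      (y ∈ Q ↔ x ∈ P)) ∧
    ∀ x y : AInt L, (y : AlgebraicClosure L) = σ.act x → y - x ^ Ideal.absNorm P ∈ Q

/-- the `l`-adic cyclotomic character -/
def chi {L : Type} [Field L] [NumberField L] (l : ℕ) [Fact l.Prime] (σ : Gal L) : ℚ_[l] :=
  algebraMap ℤ_[l] ℚ_[l] (cyclotomicCharacter (AlgebraicClosure L) l
    (@AlgEquiv.toRingEquiv L (AlgebraicClosure L) (AlgebraicClosure L) _ _ _ _ _ σ) : ℤ_[l]ˣ)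

/-- `V_l(A) = ∏ ℚ_l ⊗ K_j` -/
def Vl (C : CMData W Lam) (l : ℕ) [Fact l.Prime] : Type := ∀ j, ℚ_[l] ⊗[ℚ] C.K j

instance (C : CMData W Lam) (l : ℕ) [Fact l.Prime] : CommRing (Vl C l) := Pi.commRing

instance (C : CMData W Lam) (l : ℕ) [Fact l.Prime] : Module ℚ_[l] (Vl C l) :=
  Pi.module _ _ _

/-- the element `1 ⊗ t` of `V_l`, `t ∈ ∏ K_j` -/
def toVl (C : CMData W Lam) (l : ℕ) [Fact l.Prime] (t : ∀ j, C.K j) : Vl C l :=
  fun j => (1 : ℚ_[l]) ⊗ₜ[ℚ] t j

/-- `H^k(A, ℚ_l)`: the alternating `ℚ_l`-valued `k`-forms on `V_l` -/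
def CohL (C : CMData W Lam) (l : ℕ) [Fact l.Prime] (k : ℕ) : Type :=
  (Vl C l) [⋀^Fin k]→ₗ[ℚ_[l]] ℚ_[l]

instance (C : CMData W Lam) (l : ℕ) [Fact l.Prime] (k : ℕ) : AddCommGroup (CohL C l k) :=
  AlternatingMap.instAddCommGroup

instance (C : CMData W Lam) (l : ℕ) [Fact l.Prime] (k : ℕ) : Module ℚ_[l] (CohL C l k) :=
  AlternatingMap.instModule

/-- the value of the form -/
def CohL.val {C : CMData W Lam} {l : ℕ} [Fact l.Prime] {k : ℕ} (ω : CohL C l k)
    (v : Fin k → Vl C l) : ℚ_[l] :=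
  DFunLike.coe (F := (Vl C l) [⋀^Fin k]→ₗ[ℚ_[l]] ℚ_[l]) ω v

/-- `H_k(A, ℚ_l)`, the dual of `H^k(A, ℚ_l)`, that is `Λ^k V_l` -/
def HmgL (C : CMData W Lam) (l : ℕ) [Fact l.Prime] (k : ℕ) : Type := CohL C l k →ₗ[ℚ_[l]] ℚ_[l]

/-- the pairing of homology and cohomology -/
def HmgL.at {C : CMData W Lam} {l : ℕ} [Fact l.Prime] {k : ℕ} (Ξ : HmgL C l k) (ω : CohL C l k) :
    ℚ_[l] := DFunLike.coe (F := CohL C l k →ₗ[ℚ_[l]] ℚ_[l]) Ξ ω

/-- multiplication by `g ∈ V_l` acts on `Ξ ∈ H_k(A, ℚ_l)` as multiplication by `c` -/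
def ActsL {C : CMData W Lam} {l : ℕ} [Fact l.Prime] {k : ℕ} (Ξ : HmgL C l k) (g : Vl C l)
    (c : ℚ_[l]) : Prop :=
  ∀ ω ω' : CohL C l k, (∀ v : Fin k → Vl C l, ω'.val v = ω.val fun i => g * v i) →
    Ξ.at ω' = c * Ξ.at ω

/-- `ρ` is an `l`-adic representation of the Galois group of `L` on `V_l`, by multiplication by elements of
the ring `V_l`, of the type of the representations on the Tate modules of abelian varieties with
complex multiplication: for almost all primes `P` of `L`, all Frobenius elements over `P` act as an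
element `t ∈ ∏ K_j` with the properties of the theorem of Shimura and Taniyama (`IsFrb`). -/
def IsCM (C : CMData W Lam) {L : Type} [Field L] [NumberField L] (ι : L →+* ℂ) (l : ℕ)
    [Fact l.Prime] (ρ : Gal L →* Vl C l) : Prop :=
  AlmostAll L fun P => ∃ t : ∀ j, C.K j, IsFrb C ι P 1 t ∧
    ∀ σ : Gal L, IsFrobOver P σ → ρ σ = toVl C l t

/-- `Ξ ∈ H_{2a}(A, ℚ_l)` is a Tate class of the representation `ρ`: every `σ` acts on it as `χ(σ)^a` -/
def IsTateOver {C : CMData W Lam} {L : Type} [Field L] [NumberField L] {l : ℕ} [Fact l.Prime]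
    (ρ : Gal L →* Vl C l) (a : ℕ) (Ξ : HmgL C l (2 * a)) : Prop :=
  ∀ σ : Gal L, ActsL Ξ (ρ σ) (chi l σ ^ a)

/-- `Ξ ∈ H_{2a}(A, ℚ_l)` is a Tate class over a finite extension of `L`: there is `N > 0` such that for almost
all `P` the `N`-th power of every Frobenius element `σ` over `P` acts on `Ξ` as `χ(σ)^(aN)` (if `Ξ` is a Tate
class over the extension `L'` of `L`, take `N = [L' : L]!`) -/
def IsPotTate {C : CMData W Lam} {L : Type} [Field L] [NumberField L] {l : ℕ} [Fact l.Prime]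
    (ρ : Gal L →* Vl C l) (a : ℕ) (Ξ : HmgL C l (2 * a)) : Prop :=
  ∃ N : ℕ, 0 < N ∧ AlmostAll L fun P => ∀ σ : Gal L, IsFrobOver P σ →
    ActsL Ξ (ρ σ ^ N) (chi l σ ^ (a * N))

/-- comparison of `H^k(A, ℚ)` and `H^k(A, ℚ_l)`: the forms agree on `ℚ Lam = ∏ K_j` -/
def Comp {C : CMData W Lam} {l : ℕ} [Fact l.Prime] {k : ℕ} (η : Coh Lam k)
    (ω : CohL C l k) : Prop :=
  ∀ (w : Fin k → W) (x : Fin k → ∀ j, C.K j), (∀ i, IsPoint C (x i) (w i)) →
    ∃ q : ℚ, val η w = q ∧ ω.val (fun i => toVl C l (x i)) = q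

/-- `Ξ ∈ H_{2a}(A, ℚ_l)` is a `ℚ_l`-linear combination of classes of holomorphic maps of compact ball
quotients of dimension `a` to `A` -/
def IsAlgL {C : CMData W Lam} {l : ℕ} [Fact l.Prime] (a : ℕ) (Ξ : HmgL C l (2 * a)) : Prop :=
  ∃ (m : ℕ) (r : Fin m → ℚ_[l]) (M : Fin m → BallQuotient a) (f : Fin m → (Fin a → ℂ) → W),
    (∀ i, IsMap (M i) Lam (f i)) ∧ ∀ (η : Coh Lam (2 * a)) (ω : CohL C l (2 * a)), Comp η ω →
      ∃ q : Fin m → ℚ, (∀ i, cls (M i) (f i) η.1 = q i) ∧ Ξ.at ω = ∑ i, r i * (q i : ℚ_[l])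

end

end Pool.Agent.HC.Tate
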