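import Pool.Agent.helper39.HC.TTDefs

/-!
# Project hc: the theorem on Tate classes in terms of Galois representations, potential version
-/

namespace Pool.Agent.HC

open scoped Matrix ComplexConjugate Classical NumberField TensorProduct
open NumberField

noncomputable section

variable {W : Type} [NormedAddCommGroup W] [NormedSpace ℂ W] {Lam : AddSubgroup W}

/-- `Ξ ∈ H_{2a}(A, ℚ_l)` is a Tate class over a finite extension of `L`: there is `N > 0` such that for almost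
all `P` the `N`-th power of a Frobenius element `σ` over `P` acts on `Ξ` as `χ(σ)^(aN)`, `χ` the cyclotomic
character. (If `Ξ` is a Tate class over the extension `L'` of `L`, take `N = [L' : L]!`.) -/
def IsPotTateGal (C : CMData W Lam) {L : Type} [Field L] [NumberField L] (l : ℕ) [Fact l.Prime]
    (ρ : (AlgebraicClosure L ≃ₐ[L] AlgebraicClosure L) →* (∀ j, ℚ_[l] ⊗[ℚ] C.K j)) (a : ℕ)
    (Ξ : C.Hl l (2 * a) →ₗ[ℚ_[l]] ℚ_[l]) : Prop :=
  ∃ N : ℕ, 0 < N ∧ ∃ B : Set (Ideal (𝓞 L)), B.Finite ∧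
    ∀ P : Ideal (𝓞 L), P.IsPrime → P ≠ ⊥ → P ∉ B → ∀ σ, IsFrobAt P σ → ∀ ω : C.Hl l (2 * a),
      Ξ (ω.compLinearMap (LinearMap.mulLeft ℚ_[l] (ρ σ ^ N))) =
        (((cyclotomicCharacter (AlgebraicClosure L) l σ.toRingEquiv : ℤ_[l]ˣ) : ℤ_[l]) : ℚ_[l]) ^
          (a * N) * Ξ ω

/-- `Ξ ∈ H_{2a}(A, ℚ_l)` is a `ℚ_l`-linear combination of classes of holomorphic maps of compact ball
quotients to `W ⧸ Lam` -/
def IsBQl (C : CMData W Lam) (l : ℕ) [Fact l.Prime] (a : ℕ)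
    (Ξ : C.Hl l (2 * a) →ₗ[ℚ_[l]] ℚ_[l]) : Prop :=
  ∃ (m : ℕ) (r : Fin m → ℚ_[l]) (M : Fin m → BallQuotient a) (f : Fin m → (Fin a → ℂ) → W),
    (∀ i, IsMap (M i) Lam (f i)) ∧ ∀ (η : W [⋀^Fin (2 * a)]→ₗ[ℝ] ℝ) (ω : C.Hl l (2 * a)),
      IsRat Lam η → Compat C l η ω → ∃ q : Fin m → ℚ, (∀ i, cls (M i) (f i) η = q i) ∧
        Ξ ω = ∑ i, r i * (q i : ℚ_[l])

/-- THE THEOREM, Galois representations: Tate classes over `L` are `ℚ_l`-linear combinations of classes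
of holomorphic maps of compact ball quotients to `W ⧸ Lam`, and these combinations are exactly the
classes which are Tate classes over a finite extension of `L`. -/
def TateGal2_stmt : Prop :=
  ∀ (W : Type) [NormedAddCommGroup W] [NormedSpace ℂ W] [FiniteDimensional ℂ W]
    (Lam : AddSubgroup W), IsLattice Lam → ∀ (C : CMData W Lam) (a : ℕ)
    (L : Type) [Field L] [NumberField L] [IsGalois ℚ L] (ι : L →+* ℂ), C.Splits ι →
  ∀ (l : ℕ) [Fact l.Prime]
    (ρ : (AlgebraicClosure L ≃ₐ[L] AlgebraicClosure L) →* (∀ j, ℚ_[l] ⊗[ℚ] C.K j)),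
    IsCMRep C ι l ρ → ∀ Ξ : C.Hl l (2 * a) →ₗ[ℚ_[l]] ℚ_[l],
      (IsTateGal C l ρ a Ξ → IsBQl C l a Ξ) ∧ (IsPotTateGal C l ρ a Ξ ↔ IsBQl C l a Ξ)

/-- THE THEOREM (Hodge and Tate conjectures for abelian varieties of CM type). -/
def HodgeTateCM_stmt : Prop := HodgeIff_stmt ∧ TateCM_stmt ∧ TateGal2_stmt

end

end Pool.Agent.HC
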