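import Pool.Agent.helper39.HC.TTSpec
import Pool.Agent.helper39.HC.TTDefs2

/-!
# Project hc, Tate part: specification, part 2 (helper39): modules TTG5, TTG6
-/

namespace Pool.Agent.HC

open scoped Matrix ComplexConjugate Classical NumberField TensorProduct
open NumberField

noncomputable section

/-- TTG5: the rational classes span. A form `ω` on `V_l = ∏ ℚ_l ⊗ K_j` is a `ℚ_l`-linear combination of base
changes of `ℚ`-valued alternating forms `α` on `∏ K_j` (take a `ℚ`-basis of `∏ K_j`, so a `ℚ_l`-basis of `V_l`, and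
the dual coordinates; as in TA6, `ω = (1/k!) ∑_I ω(e_I) det(e*_{I_i})`), and every such `α` comes from a
rational real form `η` (TA10: `η` agrees with `α`, so it is rational by TA2). Uses TA2, TA10. -/
def TTG5_stmt : Prop := ∀ (W : Type) [NormedAddCommGroup W] [NormedSpace ℂ W]
  [FiniteDimensional ℂ W] (Lam : AddSubgroup W), IsLattice Lam → ∀ (C : CMData W Lam) (k : ℕ)
  (l : ℕ) [Fact l.Prime] (ω : C.Hl l k), ∃ (n : ℕ) (r : Fin n → ℚ_[l])
  (η : Fin n → ratForms Lam k) (ω' : Fin n → C.Hl l k),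
  (∀ i, Compat C l (η i : W [⋀^Fin k]→ₗ[ℝ] ℝ) (ω' i)) ∧ ω = ∑ i, r i • ω' i

/-- TTG6: `TateGal2_stmt`. `IsTateGal` implies `IsPotTateGal` with `N = 1`, `B = ∅`. If `IsPotTateGal`, take
`ξ = Ξ ∘ bc` (TTG3), `P ∉ B`, not above `l`, not in the exceptional set of `IsCMRep`, with trivial stabiliser
(TT4), `σ` a Frobenius at `P` (TTG1), `ρ σ = t`, `χ(σ) = N(P)` (TTG2), hence `ActsBy C ξ (t^N) (N(P)^(aN))`, TT6 with
`n = 1` and TT11. Conversely, `ξ = Ξ ∘ bc` is `IsBQ`, `N` from TT14 for `L`, `B` = exceptional set of `IsCMRep` and the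
primes above `l`; for `P ∉ B` and `σ` a Frobenius at `P`, `ρ σ = t` with `IsFrob C ι P 1 t`, so `ActsBy C ξ (t^N)
(N(P)^(aN))` by TT14, TT17 and TTG5, TTG2. -/
def TTG6_stmt : Prop := TateGal2_stmt

end

end Pool.Agent.HC
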