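import Pool.Agent.helper54.HC.TBase

/-!
# Project hc: definitions for the Tate conjecture (Tate classes on abelian varieties of CM type)

`W ⧸ Lam` is a complex torus of CM type (`CMData`). `H^k(W ⧸ Lam, ℚ)` is the `ℚ`-space `ratForms Lam k` of the
constant `k`-forms with rational values on the lattice, so an element of
`H_k(W ⧸ Lam, R) = Hom(H^k(W ⧸ Lam, ℚ), R)` (`R` a field of characteristic zero, for instance `ℚ_ℓ`) is a
`ℚ`-linear map `ξ : ratForms Lam k → R`.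

Frobenius elements. Let `A` be an abelian variety over a number field `L ⊂ ℂ` (Galois over `ℚ`, containing
the conjugates of the `K_j`) with complex multiplication by the `K_j` over `L`, and `W ⧸ Lam = A(ℂ)`. For
almost all primes `P` of `L` the Frobenius endomorphism of `A` modulo `P` is an element
`t ∈ ∏ K_j` (acting on `V_ℓ(A) = ∏ K_j ⊗ ℚ_ℓ`), it is integral, has all complex absolute values `N(P)^(1/2)`
(Weil) and `t_j 𝓞 L = ∏ σ⁻¹ P`, product over the `σ ∈ Gal(L/ℚ)` inducing on `K_j` an embedding in the CM type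
(theorem of Shimura and Taniyama). These properties (`IsFrob` for `n = 1`) determine `t` up to roots of
unity; `IsFrob` for `n` is the same for the `n`-th power of the Frobenius.
-/

namespace Pool.Agent.HC

open scoped Matrix ComplexConjugate Classical NumberField TensorProduct
open NumberField

noncomputable section

variable {W : Type} [NormedAddCommGroup W] [NormedSpace ℂ W] {Lam : AddSubgroup W}

/-! ## Rational cohomology, multiplication by elements of `∏ K_j` -/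

/-- `H^k(W ⧸ Lam, ℚ)`: the constant `k`-forms with rational values on the lattice -/
def ratForms (Lam : AddSubgroup W) (k : ℕ) : Submodule ℚ (W [⋀^Fin k]→ₗ[ℝ] ℝ) where
  carrier := {η | IsRat Lam η}
  add_mem' := by
    intro η η' h h' v hv
    obtain ⟨q, hq⟩ := h v hv
    obtain ⟨q', hq'⟩ := h' v hv
    exact ⟨q + q', by rw [AlternatingMap.add_apply, hq, hq', Rat.cast_add]⟩
  zero_mem' := fun v _ => ⟨0, by simp⟩
  smul_mem' := by
    intro c η h v hv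
    obtain ⟨q, hq⟩ := h v hv
    exact ⟨c * q, by rw [AlternatingMap.smul_apply, hq, Rat.smul_def, Rat.cast_mul]⟩

/-- multiplication by `t ∈ ∏ K_j` on `W = ∏ ℂ^Φ_j` (an endomorphism of `W ⧸ Lam` up to isogeny) -/
def CMData.mul (C : CMData W Lam) (t : ∀ j, C.K j) : W →ₗ[ℂ] W :=
  C.e.symm.toLinearMap ∘ₗ
    (LinearMap.pi fun j => LinearMap.pi fun φ : C.Φ j => ((φ : C.K j →+* ℂ) (t j)) •
      ((LinearMap.proj φ : (C.Φ j → ℂ) →ₗ[ℂ] ℂ) ∘ₗ
        (LinearMap.proj j : (∀ j, C.Φ j → ℂ) →ₗ[ℂ] (C.Φ j → ℂ)))) ∘ₗ C.e.toLinearMap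

/-- pull back of a form by multiplication by `t ∈ ∏ K_j` -/
def CMData.pull (C : CMData W Lam) (t : ∀ j, C.K j) {k : ℕ} (η : W [⋀^Fin k]→ₗ[ℝ] ℝ) :
    W [⋀^Fin k]→ₗ[ℝ] ℝ := η.compLinearMap ((C.mul t).restrictScalars ℝ)

/-! ## Frobenius elements -/

/-- every embedding of every `K_j` in `ℂ` factors through `ι : L → ℂ` -/
def CMData.Splits (C : CMData W Lam) {L : Type} [Field L] (ι : L →+* ℂ) : Prop :=
  ∀ (j : Fin C.r) (φ : C.K j →+* ℂ), ∃ ψ : C.K j →+* L, ι.comp ψ = φ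

/-- the ideal `∏ σ⁻¹ P` of `L`, product over the `σ ∈ Gal(L/ℚ)` with `ι ∘ σ ∘ ψ ∈ Φ` -/
def typeNorm {K L : Type} [Field K] [Field L] [NumberField L] (Φ : Set (K →+* ℂ)) (ι : L →+* ℂ)
    (ψ : K →+* L) (P : Ideal (𝓞 L)) : Ideal (𝓞 L) :=
  ∏ σ : L ≃ₐ[ℚ] L, if ι.comp ((σ : L →+* L).comp ψ) ∈ Φ then
    P.comap (RingOfIntegers.mapRingHom (σ : L →+* L)) else 1

/-- `t ∈ ∏ K_j` is, up to roots of unity, the `n`-th power of the Frobenius at the prime `P` of `L`: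
integrality, absolute values (Weil), prime ideal decomposition (Shimura and Taniyama) -/
structure IsFrob (C : CMData W Lam) {L : Type} [Field L] [NumberField L] (ι : L →+* ℂ)
    (P : Ideal (𝓞 L)) (n : ℕ) (t : ∀ j, C.K j) : Prop where
  int : ∀ j, IsIntegral ℤ (t j)
  weil : ∀ (j : Fin C.r) (φ : C.K j →+* ℂ), φ (t j) * conj (φ (t j)) = (Ideal.absNorm P : ℂ) ^ n
  st : ∀ (j : Fin C.r) (ψ : C.K j →+* L) (x : 𝓞 L), (x : L) = ψ (t j) →
    Ideal.span {x} = typeNorm (C.Φ j) ι ψ P ^ n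

/-- `t ∈ ∏ K_j` is the Frobenius of an ordinary abelian variety over the field with `q` elements with
canonical lifting `W ⧸ Lam` (up to isogeny): the `t_j` are Weil numbers, and the CM type consists of
the embeddings such that `t_j` has positive valuation at `P` -/
structure IsOrdFrob (C : CMData W Lam) {L : Type} [Field L] [NumberField L] (ι : L →+* ℂ)
    (P : Ideal (𝓞 L)) (q : ℕ) (t : ∀ j, C.K j) : Prop where
  pow : IsPrimePow q
  int : ∀ j, IsIntegral ℤ (t j)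
  weil : ∀ (j : Fin C.r) (φ : C.K j →+* ℂ), φ (t j) * conj (φ (t j)) = (q : ℂ)
  ord : ∀ (j : Fin C.r) (ψ : C.K j →+* L) (x : 𝓞 L), (x : L) = ψ (t j) →
    (x ∈ P ↔ ι.comp ψ ∈ C.Φ j)

/-! ## Tate classes -/

/-- the endomorphism `t` acts on the homology class `ξ` as multiplication by `c` -/
def ActsBy (C : CMData W Lam) {k : ℕ} {R : Type} [Field R] [CharZero R]
    (ξ : ratForms Lam k →ₗ[ℚ] R) (t : ∀ j, C.K j) (c : R) : Prop :=
  ∀ η η' : ratForms Lam k, (η' : W [⋀^Fin k]→ₗ[ℝ] ℝ) = C.pull t (η : W [⋀^Fin k]→ₗ[ℝ] ℝ) →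
    ξ η' = c * ξ η

/-- `ξ ∈ H_{2a}(W ⧸ Lam, R)` is a Tate class (over some finite extension of the field of definition):
there is a number field `L`, such that for almost all primes `P` of `L` the Frobenius at `P`, and more
generally every `t` which is up to roots of unity the `n`-th power of the Frobenius, acts on `ξ` as
`N(P)^(na)`, up to replacing it by a power. -/
def IsTate (C : CMData W Lam) (a : ℕ) {R : Type} [Field R] [CharZero R]
    (ξ : ratForms Lam (2 * a) →ₗ[ℚ] R) : Prop :=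
  ∃ (L : Type) (_ : Field L) (_ : NumberField L) (ι : L →+* ℂ), IsGalois ℚ L ∧ C.Splits ι ∧
    ∃ B : Set (Ideal (𝓞 L)), B.Finite ∧ ∀ P : Ideal (𝓞 L), P.IsPrime → P ≠ ⊥ → P ∉ B →
      ∀ (n : ℕ) (t : ∀ j, C.K j), 0 < n → IsFrob C ι P n t →
        ∃ N : ℕ, 0 < N ∧ ActsBy C ξ (fun j => t j ^ N) ((Ideal.absNorm P : R) ^ (n * a * N))

/-- `ξ ∈ H_{2a}(W ⧸ Lam, R)` is an `R`-linear combination of classes of holomorphic maps of compact ball
quotients of dimension `a` to `W ⧸ Lam` (these classes are rational, algebraic cycle classes) -/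
def IsBQ (Lam : AddSubgroup W) (a : ℕ) {R : Type} [Field R] [CharZero R]
    (ξ : ratForms Lam (2 * a) →ₗ[ℚ] R) : Prop :=
  ∃ (m : ℕ) (r : Fin m → R) (M : Fin m → BallQuotient a) (f : Fin m → (Fin a → ℂ) → W),
    (∀ i, IsMap (M i) Lam (f i)) ∧ ∀ η : ratForms Lam (2 * a), ∃ q : Fin m → ℚ,
      (∀ i, cls (M i) (f i) (η : W [⋀^Fin (2 * a)]→ₗ[ℝ] ℝ) = q i) ∧ ξ η = ∑ i, r i * (q i : R)

/-- THE THEOREM, Tate classes. `W ⧸ Lam` a complex torus of CM type. The Tate classes of degree `2a` are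
exactly the `R`-linear combinations of classes of holomorphic maps of compact ball quotients. -/
def TateCM_stmt : Prop :=
  ∀ (W : Type) [NormedAddCommGroup W] [NormedSpace ℂ W] [FiniteDimensional ℂ W]
    (Lam : AddSubgroup W), IsLattice Lam → ∀ (C : CMData W Lam) (a : ℕ)
    (R : Type) [Field R] [CharZero R] (ξ : ratForms Lam (2 * a) →ₗ[ℚ] R),
    IsTate C a ξ ↔ IsBQ Lam a ξ

/-- THE THEOREM, ordinary abelian varieties over finite fields. `W ⧸ Lam` the canonical lifting of an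
ordinary abelian variety over the field with `q` elements, `t` its Frobenius: a class on which a
power `t^N` acts as `q^(aN)` is an `R`-linear combination of classes of holomorphic maps of compact ball
quotients to the canonical lifting, and conversely. -/
def TateOrd_stmt : Prop :=
  ∀ (W : Type) [NormedAddCommGroup W] [NormedSpace ℂ W] [FiniteDimensional ℂ W]
    (Lam : AddSubgroup W), IsLattice Lam → ∀ (C : CMData W Lam) (a : ℕ)
    (R : Type) [Field R] [CharZero R] (ξ : ratForms Lam (2 * a) →ₗ[ℚ] R)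
    (L : Type) [Field L] [NumberField L] [IsGalois ℚ L] (ι : L →+* ℂ), C.Splits ι →
  ∀ (P : Ideal (𝓞 L)), P.IsPrime → P ≠ ⊥ → ∀ (q : ℕ) (t : ∀ j, C.K j), IsOrdFrob C ι P q t →
    ((∃ N : ℕ, 0 < N ∧ ActsBy C ξ (fun j => t j ^ N) ((q : R) ^ (a * N))) ↔ IsBQ Lam a ξ)

/-- THE THEOREM, Hodge classes: they are exactly the `ℚ`-linear combinations of classes of holomorphic
maps of compact ball quotients. -/
def HodgeIff_stmt : Prop :=
  ∀ (W : Type) [NormedAddCommGroup W] [NormedSpace ℂ W] [FiniteDimensional ℂ W]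
    (Lam : AddSubgroup W), IsLattice Lam → Nonempty (CMData W Lam) →
  ∀ (a : ℕ) (ξ : (W [⋀^Fin (2 * a)]→ₗ[ℝ] ℝ) →ₗ[ℝ] ℝ), IsHodge Lam ξ ↔
  ∃ (n : ℕ) (q : Fin n → ℚ) (M : Fin n → BallQuotient a) (f : Fin n → (Fin a → ℂ) → W),
    (∀ i, IsMap (M i) Lam (f i)) ∧ ∀ η : W [⋀^Fin (2 * a)]→ₗ[ℝ] ℝ,
      ξ η = ∑ i, (q i : ℝ) * cls (M i) (f i) η

/-! ## Galois representations -/

/-- `σ ∈ Gal(Lbar/L)` is a Frobenius element over the prime `P` of `L`: there is a prime `Q` over `P` of the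
ring of all algebraic integers of `Lbar` with `σ x ≡ x^N(P)` modulo `Q` for all algebraic integers `x` -/
def IsFrobAt {L : Type} [Field L] [NumberField L] (P : Ideal (𝓞 L))
    (σ : AlgebraicClosure L ≃ₐ[L] AlgebraicClosure L) : Prop :=
  ∃ Q : Ideal (integralClosure ℤ (AlgebraicClosure L)), Q.IsPrime ∧
    (∀ (x : 𝓞 L) (y : integralClosure ℤ (AlgebraicClosure L)),
      (y : AlgebraicClosure L) = algebraMap L (AlgebraicClosure L) (x : L) → (y ∈ Q ↔ x ∈ P)) ∧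
    ∀ x y : integralClosure ℤ (AlgebraicClosure L),
      (y : AlgebraicClosure L) = σ (x : AlgebraicClosure L) → y - x ^ Ideal.absNorm P ∈ Q

/-- `ρ` is an `ℓ`-adic representation of `Gal(Lbar/L)` on `V_ℓ = ∏ K_j ⊗ ℚ_ℓ` (by multiplication by elements of
this ring), with Frobenius elements at almost all `P` given by the theorem of Shimura and
Taniyama. The Tate module `V_ℓ(A)` of every abelian variety `A` over `L` with complex multiplication over `L`
of type `(K_j, Φ_j)` is of this kind. -/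
def IsCMRep (C : CMData W Lam) {L : Type} [Field L] [NumberField L] (ι : L →+* ℂ) (l : ℕ)
    [Fact l.Prime]
    (ρ : (AlgebraicClosure L ≃ₐ[L] AlgebraicClosure L) →* (∀ j, ℚ_[l] ⊗[ℚ] C.K j)) : Prop :=
  ∃ B : Set (Ideal (𝓞 L)), B.Finite ∧ ∀ P : Ideal (𝓞 L), P.IsPrime → P ≠ ⊥ → P ∉ B →
    ∃ t : ∀ j, C.K j, IsFrob C ι P 1 t ∧ ∀ σ, IsFrobAt P σ → ρ σ = fun j => (1 : ℚ_[l]) ⊗ₜ[ℚ] t j

/-- `l`-adic cohomology `H^k(A, ℚ_l)`: alternating `k`-forms on `V_l = ∏ K_j ⊗ ℚ_l` -/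
abbrev CMData.Hl (C : CMData W Lam) (l : ℕ) [Fact l.Prime] (k : ℕ) : Type :=
  (∀ j, ℚ_[l] ⊗[ℚ] C.K j) [⋀^Fin k]→ₗ[ℚ_[l]] ℚ_[l]

/-- comparison of `H^k(A, ℚ)` and `H^k(A, ℚ_l)`: the forms `η` and `ω` agree on `ℚ Lam = ∏ K_j` -/
def Compat (C : CMData W Lam) (l : ℕ) [Fact l.Prime] {k : ℕ} (η : W [⋀^Fin k]→ₗ[ℝ] ℝ)
    (ω : C.Hl l k) : Prop :=
  ∀ (w : Fin k → W) (x : Fin k → ∀ j, C.K j),
    (∀ (i : Fin k) (j : Fin C.r) (φ : C.Φ j), C.e (w i) j φ = (φ : C.K j →+* ℂ) (x i j)) →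
    ∃ q : ℚ, η w = q ∧ ω (fun i j => (1 : ℚ_[l]) ⊗ₜ[ℚ] x i j) = q

/-- `Ξ ∈ H_{2a}(A, ℚ_l) = Λ^{2a} V_l` is a Tate class of the representation `ρ`: `σ ∈ Gal(Lbar/L)` acts on it as
`χ(σ)^a`, `χ` the cyclotomic character -/
def IsTateGal (C : CMData W Lam) {L : Type} [Field L] [NumberField L] (l : ℕ) [Fact l.Prime]
    (ρ : (AlgebraicClosure L ≃ₐ[L] AlgebraicClosure L) →* (∀ j, ℚ_[l] ⊗[ℚ] C.K j)) (a : ℕ)
    (Ξ : C.Hl l (2 * a) →ₗ[ℚ_[l]] ℚ_[l]) : Prop :=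
  ∀ (σ : AlgebraicClosure L ≃ₐ[L] AlgebraicClosure L) (ω : C.Hl l (2 * a)),
    Ξ (ω.compLinearMap (LinearMap.mulLeft ℚ_[l] (ρ σ))) =
      (((cyclotomicCharacter (AlgebraicClosure L) l σ.toRingEquiv : ℤ_[l]ˣ) : ℤ_[l]) : ℚ_[l]) ^ a *
        Ξ ω

/-- THE THEOREM, Galois representations. -/
def TateGal_stmt : Prop :=
  ∀ (W : Type) [NormedAddCommGroup W] [NormedSpace ℂ W] [FiniteDimensional ℂ W]
    (Lam : AddSubgroup W), IsLattice Lam → ∀ (C : CMData W Lam) (a : ℕ)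
    (L : Type) [Field L] [NumberField L] [IsGalois ℚ L] (ι : L →+* ℂ), C.Splits ι →
  ∀ (l : ℕ) [Fact l.Prime]
    (ρ : (AlgebraicClosure L ≃ₐ[L] AlgebraicClosure L) →* (∀ j, ℚ_[l] ⊗[ℚ] C.K j)),
    IsCMRep C ι l ρ → ∀ Ξ : C.Hl l (2 * a) →ₗ[ℚ_[l]] ℚ_[l], IsTateGal C l ρ a Ξ →
  ∃ (m : ℕ) (r : Fin m → ℚ_[l]) (M : Fin m → BallQuotient a) (f : Fin m → (Fin a → ℂ) → W),
    (∀ i, IsMap (M i) Lam (f i)) ∧ ∀ (η : W [⋀^Fin (2 * a)]→ₗ[ℝ] ℝ) (ω : C.Hl l (2 * a)),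
      IsRat Lam η → Compat C l η ω → ∃ q : Fin m → ℚ, (∀ i, cls (M i) (f i) η = q i) ∧
        Ξ ω = ∑ i, r i * (q i : ℚ_[l])

end

end Pool.Agent.HC
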