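import Pool.Agent.helper54.HC.TSpec
import Pool.Agent.helper39.HC.TTDefs

/-!
# Project hc, Tate part: specification (helper39)

Goal: `HodgeCM_stmt` implies `TateCM_stmt`, `TateOrd_stmt`, `TateGal_stmt` (`TTDefs.lean`). Every
`XX_stmt : Prop` is a module `hc:XX`. File `Pool/Agent/<you>/HC/XX.lean`,
`import Pool.Agent.helper39.HC.TTSpec`, namespace `Pool.Agent.HC`,
`open scoped Matrix ComplexConjugate Classical NumberField TensorProduct`, `open NumberField`,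
`theorem XX (h : YY_stmt) ... : XX_stmt`. Hypotheses: any statement of this file or of `TSpec.lean` (except
circularly), and `HodgeCM_stmt`. Auxiliary lemmas are prefixed `XX_`.
-/

namespace Pool.Agent.HC

open scoped Matrix ComplexConjugate Classical NumberField TensorProduct
open NumberField

noncomputable section

/-! ## A. Linear algebra -/

/-- TT1: multiplication by `t`: coordinates (unfold `CMData.mul`, `CMData.co`), rationality of the pull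
back: for `v_i ∈ Lam` the vectors `t v_i` are in the rational span of `Lam` (TA2), so
`n^k η(t v) = η(n t v) ∈ ℚ` for a common multiple `n`. Uses TA2. -/
def TT1_stmt : Prop := ∀ (W : Type) [NormedAddCommGroup W] [NormedSpace ℂ W]
  (Lam : AddSubgroup W) (C : CMData W Lam) (t : ∀ j, C.K j),
  (∀ (w : W) (j : Fin C.r) (φ : C.Φ j),
    C.e (C.mul t w) j φ = (φ : C.K j →+* ℂ) (t j) * C.e w j φ) ∧
  (∀ (s : C.J) (w : W), C.co s (C.mul t w) = s.2 (t s.1) * C.co s w) ∧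
  (∀ (k : ℕ) (η : W [⋀^Fin k]→ₗ[ℝ] ℝ), IsRat Lam η → IsRat Lam (C.pull t η))

/-- TT2: the rational forms are a finite dimensional `ℚ`-space, a `ℚ`-linear functional on them extends to
a unique real functional on all forms. With the lattice basis of TA5: evaluation at the
`(b_{I_1}, ..., b_{I_k})` is injective on forms and maps the rational forms to `ℚ^(Fin k → Fin n)`
(finite dimension); the forms `det(ℓ_{I_i}(v_j))` are rational and span all forms over `ℝ` (TA6);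
the rational forms in the span with real coefficients: a `ℚ`-basis of `ratForms` is linearly independent
over `ℝ` (it is so in `ℚ^(..) ⊂ ℝ^(..)`), so it is an `ℝ`-basis of all forms. Uses TA5, TA6. -/
def TT2_stmt : Prop := ∀ (W : Type) [NormedAddCommGroup W] [NormedSpace ℂ W]
  [FiniteDimensional ℂ W] (Lam : AddSubgroup W), IsLattice Lam → ∀ k : ℕ,
  FiniteDimensional ℚ (ratForms Lam k) ∧
  (∀ c : ratForms Lam k →ₗ[ℚ] ℚ, ∃ c' : (W [⋀^Fin k]→ₗ[ℝ] ℝ) →ₗ[ℝ] ℝ,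
    ∀ η : ratForms Lam k, c' (η : W [⋀^Fin k]→ₗ[ℝ] ℝ) = (c η : ℝ)) ∧
  (∀ c c' : (W [⋀^Fin k]→ₗ[ℝ] ℝ) →ₗ[ℝ] ℝ, (∀ η, IsRat Lam η → c η = c' η) → c = c')

/-- TT3: the range of `ξ` is a finite dimensional `ℚ`-subspace of `R`; `r_i` a basis of it, `c_i` the
coordinates of `ξ`. Uses nothing. -/
def TT3_stmt : Prop := ∀ (V : Type) [AddCommGroup V] [Module ℚ V] [FiniteDimensional ℚ V]
  (R : Type) [Field R] [CharZero R] (ξ : V →ₗ[ℚ] R),
  ∃ (m : ℕ) (r : Fin m → R) (c : Fin m → (V →ₗ[ℚ] ℚ)),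
    (∀ v, ξ v = ∑ i, r i * (c i v : R)) ∧ ∀ v, ξ v = 0 → ∀ i, c i v = 0

/-- TT7: eigenvalues. `c (pull T η) - Q c η` is a real functional of `η` vanishing on the rational forms,
so it is 0 (TT2); then the same for complex forms and `extC c` (real and imaginary part), and
`det(co_{s_i}(T v_j)) = (∏ s_i(T)) det(co_{s_i}(v_j))` (TT1). Uses TT1, TT2, TA8. -/
def TT7_stmt : Prop := ∀ (W : Type) [NormedAddCommGroup W] [NormedSpace ℂ W]
  [FiniteDimensional ℂ W] (Lam : AddSubgroup W), IsLattice Lam → ∀ (C : CMData W Lam) (k : ℕ)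
  (c : (W [⋀^Fin k]→ₗ[ℝ] ℝ) →ₗ[ℝ] ℝ) (T : ∀ j, C.K j) (Q : ℝ),
  (∀ η, IsRat Lam η → c (C.pull T η) = Q * c η) →
  ∀ s : Fin k → C.J, C.wt c s ≠ 0 → ∏ i, (s i).2 (T (s i).1) = (Q : ℂ)

/-- TT9: a functional all of whose weights have type `(a,a)` is invariant under `rot`.
`η = ∑_s γ_s det(co_s)` (TA3, TA4), so `η ∘ rot = ∑_s γ_s e^{i(p_s - q_s)t} det(co_s)` with
`p_s` the number of `i` with `s_i` in the types, `p_s + q_s = 2a`, and `c η = ∑_s γ_s wt c s`, similarly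
`c (η ∘ rot)` (TA8). Uses TA1, TA3, TA4, TA8. -/
def TT9_stmt : Prop := ∀ (W : Type) [NormedAddCommGroup W] [NormedSpace ℂ W]
  [FiniteDimensional ℂ W] (Lam : AddSubgroup W) (C : CMData W Lam) (a : ℕ)
  (c : (W [⋀^Fin (2 * a)]→ₗ[ℝ] ℝ) →ₗ[ℝ] ℝ),
  (∀ s : Fin (2 * a) → C.J, C.wt c s ≠ 0 → Nat.card {i // (s i).2 ∈ C.Φ (s i).1} = a) →
  ∀ (t : ℝ) (η : W [⋀^Fin (2 * a)]→ₗ[ℝ] ℝ), c (η.compLinearMap (rot t)) = c η

/-! ## B. Number theory -/

/-- TT4: infinitely many primes with trivial stabiliser. Let `th` be an integral primitive element of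
`L`, `D` a natural number such that all `th - σ th` (`σ ≠ 1`) are units outside `D` (norms). By the
statements SA3, SA5, SA7 of `Pool/Agent/helper89/HC/SpecSA.lean` (import it, use them as hypotheses, or
argue directly): there are a prime `p` (not dividing a given `M`, so that the primes above `p` are not
in `B`) and a prime `P` with `N(P) = p`; if `σ⁻¹ P = P`, take an integer `r` with `th - r ∈ P`; then
`σ th - r ∈ P`, so `th - σ th ∈ P` and `σ = 1`. -/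
def TT4_stmt : Prop := ∀ (L : Type) [Field L] [NumberField L] [IsGalois ℚ L]
  (B : Set (Ideal (𝓞 L))), B.Finite → ∃ P : Ideal (𝓞 L), P ∉ B ∧ P.IsPrime ∧ P ≠ ⊥ ∧
  ∀ σ : L ≃ₐ[ℚ] L, P.comap (RingOfIntegers.mapRingHom (σ : L →+* L)) = P → σ = 1

/-- TT5a: Galois descent for the reflex norm. `u = ∏ σ⁻¹ x` over the `σ` with `ι ∘ σ ∘ ψ₀ ∈ Φ`; if `τ`
fixes `ψ₀(K)` then `τ u = ∏ (σ τ⁻¹)⁻¹ x = u`, so `u = ψ₀(t)`. Every `ψ` is `τ ∘ ψ₀`, and
`ψ(t) = τ u = ∏ (σ τ⁻¹)⁻¹ x` and `(σ τ⁻¹) ∘ ψ = σ ∘ ψ₀`. Uses nothing. -/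
def TT5a_stmt : Prop := ∀ (K L : Type) [Field K] [NumberField K] [Field L] [NumberField L]
  [IsGalois ℚ L] (ι : L →+* ℂ) (Φ : Set (K →+* ℂ)) (_ : K →+* L) (x : L),
  ∃ t : K, ∀ ψ : K →+* L, ψ t = ∏ σ : L ≃ₐ[ℚ] L,
    if ι.comp ((σ : L →+* L).comp ψ) ∈ Φ then σ.symm x else 1

/-- TT5b: absolute values. `φ = ι ∘ ψ`; `conj ∘ φ = φ ∘ c`, `c` the complex conjugation of the CM field `K`
(`NumberField.IsCMField`), so `conj (φ t) = ι (ψ' t)` with `ψ' = ψ ∘ c`; the `σ` with `ι ∘ σ ∘ ψ' ∈ Φ` are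
exactly those with `ι ∘ σ ∘ ψ ∉ Φ`. So the product is `ι (∏ σ⁻¹ x)` over all `σ`. Uses nothing. -/
def TT5b_stmt : Prop := ∀ (K L : Type) [Field K] [NumberField K] [Field L] [NumberField L]
  [IsGalois ℚ L] (ι : L →+* ℂ) (Φ : Set (K →+* ℂ)), IsCMField K → IsCMType Φ → ∀ (x : L) (t : K),
  (∀ ψ : K →+* L, ψ t = ∏ σ : L ≃ₐ[ℚ] L,
    if ι.comp ((σ : L →+* L).comp ψ) ∈ Φ then σ.symm x else 1) →
  ∀ ψ : K →+* L, (ι.comp ψ) t * conj ((ι.comp ψ) t) = ι (∏ σ : L ≃ₐ[ℚ] L, σ x)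

/-- TT5: Frobenius elements exist up to a power. `P^n = (x)` (class number), `t_j` from TT5a for `x`;
`∏ σ x = N(x) = ± N(P)^n`, and the sign is `+` because `φ(t) conj(φ(t)) ≥ 0`; the ideal of
`ψ(t_j) = ∏ σ⁻¹ x` is `∏ (σ⁻¹ P)^n` (`σ⁻¹ P = P.comap σ`). Uses TT5a, TT5b. -/
def TT5_stmt : Prop := ∀ (W : Type) [NormedAddCommGroup W] [NormedSpace ℂ W]
  (Lam : AddSubgroup W) (C : CMData W Lam) (L : Type) [Field L] [NumberField L] [IsGalois ℚ L]
  (ι : L →+* ℂ), C.Splits ι → ∀ P : Ideal (𝓞 L), P.IsPrime → P ≠ ⊥ →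
  ∃ (n : ℕ) (t : ∀ j, C.K j), 0 < n ∧ IsFrob C ι P n t

/-- TT6: at a prime with trivial stabiliser the reduction is ordinary. `x ∈ P` iff
`∏ (σ⁻¹ P)^n ⊆ P` iff some `σ⁻¹ P ⊆ P`, `ι ∘ σ ∘ ψ ∈ Φ`, iff `σ⁻¹ P = P` (maximal ideals), iff `σ = 1`.
Uses nothing. -/
def TT6_stmt : Prop := ∀ (W : Type) [NormedAddCommGroup W] [NormedSpace ℂ W]
  (Lam : AddSubgroup W) (C : CMData W Lam) (L : Type) [Field L] [NumberField L]
  (ι : L →+* ℂ) (P : Ideal (𝓞 L)), P.IsPrime → P ≠ ⊥ →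
  (∀ σ : L ≃ₐ[ℚ] L, P.comap (RingOfIntegers.mapRingHom (σ : L →+* L)) = P → σ = 1) →
  ∀ (n : ℕ) (t : ∀ j, C.K j), 0 < n → IsFrob C ι P n t →
    IsOrdFrob C ι P (Ideal.absNorm P ^ n) t

/-- TT8: valuations at `P`: `q ∈ P`, and `v(x_i) = v(q)` if `x_i ∈ P` (then `y_i ∉ P`), `v(x_i) = 0` otherwise;
so `N v(q) #{i | x_i ∈ P} = a N v(q)`. Uses nothing. -/
def TT8_stmt : Prop := ∀ (L : Type) [Field L] [NumberField L] (P : Ideal (𝓞 L)), P.IsPrime →
  P ≠ ⊥ → ∀ (m a N q : ℕ) (x y : Fin m → 𝓞 L), 0 < m → 0 < N → 0 < q →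
  (∀ i, x i * y i = (q : 𝓞 L)) →
  (∀ i, x i ∈ P ↔ y i ∉ P) → ∏ i, x i ^ N = (q : 𝓞 L) ^ (a * N) → Nat.card {i // x i ∈ P} = a

/-- TT14a: in a Galois number field the product of the conjugates of a prime `P` is `(N(P))`: the
group permutes the primes above `p` transitively, each occurs `e f` times, `∏ P'^e = (p)` and
`N(P) = p^f`. (Or by `Ideal.relNorm`/`Ideal.spanNorm` if Mathlib has it.) Uses nothing. -/
def TT14a_stmt : Prop := ∀ (L : Type) [Field L] [NumberField L] [IsGalois ℚ L]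
  (P : Ideal (𝓞 L)), P.IsPrime → P ≠ ⊥ →
  ∏ σ : L ≃ₐ[ℚ] L, P.comap (RingOfIntegers.mapRingHom (σ : L →+* L)) =
    Ideal.span {(Ideal.absNorm P : 𝓞 L)}

/-- TT14b: Kronecker. `u = z / Q` is a unit with all absolute values 1, so a root of unity in `L`
(`NumberField.Embeddings.pow_eq_one_of_norm_eq_one` or similar), its order divides the number of roots of
unity in `L`. Uses nothing. -/
def TT14b_stmt : Prop := ∀ (L : Type) [Field L] [NumberField L], ∃ N : ℕ, 0 < N ∧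
  ∀ (z : 𝓞 L) (Q : ℕ), 0 < Q → Ideal.span {z} = Ideal.span {(Q : 𝓞 L)} →
    (∀ τ : L →+* ℂ, ‖τ (z : L)‖ = (Q : ℝ)) → z ^ N = (Q : 𝓞 L) ^ N

/-- TT14: the value of a balanced weight at a Frobenius. `z = ∏ ψ_i(t_{j_i})`; its ideal is
`∏_i ∏_{σ : ι σ ψ_i ∈ Φ} (σ⁻¹ P)^n = ∏_σ (σ⁻¹ P)^(n a) = (N(P))^(n a)` (every `ι ∘ σ` is an embedding;
TT14a), the absolute values are `N(P)^(n a)` (`weil`: `‖τ ψ_i(t)‖² = N(P)^n`); TT14b with
`Q = N(P)^(n a)`. Uses TT14a, TT14b. -/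
def TT14_stmt : Prop := ∀ (W : Type) [NormedAddCommGroup W] [NormedSpace ℂ W]
  (Lam : AddSubgroup W) (C : CMData W Lam) (L : Type) [Field L] [NumberField L] [IsGalois ℚ L]
  (ι : L →+* ℂ), ∃ N : ℕ, 0 < N ∧ ∀ P : Ideal (𝓞 L), P.IsPrime → P ≠ ⊥ →
  ∀ (n : ℕ) (t : ∀ j, C.K j), IsFrob C ι P n t → ∀ (a : ℕ) (j : Fin (2 * a) → Fin C.r)
    (ψ : ∀ i, C.K (j i) →+* L),
    (∀ σ : L →+* ℂ, Nat.card {i // σ.comp (ψ i) ∈ C.Φ (j i)} = a) →
    ∏ i, ψ i (t (j i) ^ N) = (Ideal.absNorm P : L) ^ (n * a * N)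

/-- TT15: the same for an ordinary Frobenius. `z = ∏ ψ_i(t_{j_i})`, integral, and `(z) = (q)^a`: compare the
valuations at every prime `P' ≠ ⊥`. If `q ∉ P'` both are 0 (`ψ_i(t) ψ_i(c t) = q`, `c` the complex conjugation of
`K_j`). If `q ∈ P'` (and `a > 0`) then `q ∈ P` too (`ψ_i(t)` or `ψ_i(c t)` is in `P`), `q` is a power of a prime
number, so `P' = P.comap σ` for some `σ`; the valuation of `ψ_i(t)` at `P'` is that of `σ ψ_i(t)` at `P`, which is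
`v_P(q)` if `ι σ ψ_i ∈ Φ` and 0 otherwise (see TT8); the sum is `a v_P(q)`, and `v_P(q) = v_{P'}(q)`. Absolute
values from `weil`; TT14b. Uses TT14b. -/
def TT15_stmt : Prop := ∀ (W : Type) [NormedAddCommGroup W] [NormedSpace ℂ W]
  (Lam : AddSubgroup W) (C : CMData W Lam) (L : Type) [Field L] [NumberField L] [IsGalois ℚ L]
  (ι : L →+* ℂ), C.Splits ι → ∃ N : ℕ, 0 < N ∧ ∀ P : Ideal (𝓞 L), P.IsPrime → P ≠ ⊥ →
  ∀ (q : ℕ) (t : ∀ j, C.K j), IsOrdFrob C ι P q t →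
    ∀ (a : ℕ) (j : Fin (2 * a) → Fin C.r) (ψ : ∀ i, C.K (j i) →+* L),
    (∀ σ : L →+* ℂ, Nat.card {i // σ.comp (ψ i) ∈ C.Φ (j i)} = a) →
    ∏ i, ψ i (t (j i) ^ N) = (q : L) ^ (a * N)

/-! ## C. Tate classes are combinations of classes of ball quotients -/

/-- TT10: rational classes. The real functional `c` is invariant under `rot` (TT9): let `wt c s ≠ 0`,
`s = twist ι j ψ` (`Splits`), `x_i = ψ_i(t_{j_i})`, `y_i = ψ_i(c t_{j_i})` (`c` the complex conjugation of `K_j`), so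
`x_i y_i = q` (`weil`) and `x_i ∈ P ↔ y_i ∉ P` (`ord`, CM type); `∏ x_i^N = q^(aN)` (TT7, `ι` injective), so
the number of `i` with `s_i` in the types is `a` (TT8); `a = 0` is trivial. Uses TT7, TT8, TT9. -/
def TT10_stmt : Prop := ∀ (W : Type) [NormedAddCommGroup W] [NormedSpace ℂ W]
  [FiniteDimensional ℂ W] (Lam : AddSubgroup W), IsLattice Lam → ∀ (C : CMData W Lam) (a : ℕ)
  (c : (W [⋀^Fin (2 * a)]→ₗ[ℝ] ℝ) →ₗ[ℝ] ℝ), IsRatClass Lam c →
  ∀ (L : Type) [Field L] [NumberField L] (ι : L →+* ℂ), C.Splits ι →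
  ∀ (P : Ideal (𝓞 L)), P.IsPrime → P ≠ ⊥ → ∀ (q : ℕ) (t : ∀ j, C.K j), IsOrdFrob C ι P q t →
  ∀ N : ℕ, 0 < N → (∀ η, IsRat Lam η → c (C.pull (fun j => t j ^ N) η) = (q : ℝ) ^ (a * N) * c η) →
  IsHodge Lam c

/-- TT11: the core. `ξ = ∑ r_i c_i` with `c_i : ratForms → ℚ` satisfying all `ℚ`-linear relations that `ξ`
satisfies (TT3, TT2): `c_i (pull η) = q^(aN) c_i η`, because `ξ (pull η - q^(aN) η) = 0` (TT1); extend `c_i` to
real functionals (TT2), `IsRatClass`, so `IsHodge` (TT10) and `HodgeCM_stmt` gives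
`c_i η = ∑ q_{i,l} cls (M_{i,l}) (f_{i,l}) η`, and the `cls` are rational on rational forms (TB6).
Uses HodgeCM, TB6, TT1, TT2, TT3, TT10. -/
def TT11_stmt : Prop := ∀ (W : Type) [NormedAddCommGroup W] [NormedSpace ℂ W]
  [FiniteDimensional ℂ W] (Lam : AddSubgroup W), IsLattice Lam → ∀ (C : CMData W Lam) (a : ℕ)
  (R : Type) [Field R] [CharZero R] (ξ : ratForms Lam (2 * a) →ₗ[ℚ] R)
  (L : Type) [Field L] [NumberField L] (ι : L →+* ℂ), C.Splits ι →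
  ∀ (P : Ideal (𝓞 L)), P.IsPrime → P ≠ ⊥ → ∀ (q : ℕ) (t : ∀ j, C.K j), IsOrdFrob C ι P q t →
  ∀ N : ℕ, 0 < N → ActsBy C ξ (fun j => t j ^ N) ((q : R) ^ (a * N)) → IsBQ Lam a ξ

/-- TT12: Tate classes. `P ∉ B` with trivial stabiliser (TT4), `n`, `t` with `IsFrob C ι P n t` (TT5), it is
`IsOrdFrob` with `q = N(P)^n` (TT6), TT11. Uses TT4, TT5, TT6, TT11. -/
def TT12_stmt : Prop := ∀ (W : Type) [NormedAddCommGroup W] [NormedSpace ℂ W]
  [FiniteDimensional ℂ W] (Lam : AddSubgroup W), IsLattice Lam → ∀ (C : CMData W Lam) (a : ℕ)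
  (R : Type) [Field R] [CharZero R] (ξ : ratForms Lam (2 * a) →ₗ[ℚ] R), IsTate C a ξ →
  IsBQ Lam a ξ

/-! ## D. Conversely -/

/-- TT13: the class of a holomorphic map is of type `(a,a)`. `Df` is complex linear, so
`η(e^{it} Df(b_1), ..) = η(Df(e^{it} b_1), ..)`, the pull back of `η` by `Df` is a top degree form on the real
space `ℂ^a` of dimension `2a`, multiplied by the determinant of multiplication by `e^{it}`, which is 1
(`rb` is the standard real basis; rotation matrices). Equality under the integral at every point of the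
ball. Uses nothing. -/
def TT13_stmt : Prop := ∀ (W : Type) [NormedAddCommGroup W] [NormedSpace ℂ W] (a : ℕ)
  (M : BallQuotient a) (f : (Fin a → ℂ) → W), DifferentiableOn ℂ f (UBall a) →
  ∀ (t : ℝ) (η : W [⋀^Fin (2 * a)]→ₗ[ℝ] ℝ), cls M f (η.compLinearMap (rot t)) = cls M f η

/-- TT16: a Hodge class has only balanced weights (TA12), so it is an eigenvector of every `T ∈ ∏ K_j` on
which all balanced weights take the same value: `η = ∑_s γ_s det(co_s)` (TA3, TA4), all `s` are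
`twist ι j ψ` (`Splits`), `c (pull T η) = ∑_s γ_s (∏ s_i(T)) wt c s` and `c η = ∑_s γ_s wt c s` (TT1, TA8).
Uses TA3, TA4, TA8, TA12, TT1. -/
def TT16_stmt : Prop := ∀ (W : Type) [NormedAddCommGroup W] [NormedSpace ℂ W]
  [FiniteDimensional ℂ W] (Lam : AddSubgroup W), IsLattice Lam → ∀ (C : CMData W Lam) (a : ℕ)
  (c : (W [⋀^Fin (2 * a)]→ₗ[ℝ] ℝ) →ₗ[ℝ] ℝ), IsHodge Lam c →
  ∀ (L : Type) [Field L] [NumberField L] (ι : L →+* ℂ), C.Splits ι →
  ∀ (T : ∀ j, C.K j) (Q : ℚ),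
    (∀ (j : Fin (2 * a) → Fin C.r) (ψ : ∀ i, C.K (j i) →+* L),
      (∀ σ : L →+* ℂ, Nat.card {i // σ.comp (ψ i) ∈ C.Φ (j i)} = a) →
      ∏ i, ψ i (T (j i)) = (Q : L)) →
  ∀ η : W [⋀^Fin (2 * a)]→ₗ[ℝ] ℝ, c (C.pull T η) = (Q : ℝ) * c η

/-- TT17: combinations of classes of ball quotients are eigenvectors. `cls M f` is a linear functional (TB3),
rational (TB6), so a Hodge class (TT13), TT16; the coefficients `r_i` are arbitrary. Uses TB3, TB6,
TT13, TT16. -/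
def TT17_stmt : Prop := ∀ (W : Type) [NormedAddCommGroup W] [NormedSpace ℂ W]
  [FiniteDimensional ℂ W] (Lam : AddSubgroup W), IsLattice Lam → ∀ (C : CMData W Lam) (a : ℕ)
  (R : Type) [Field R] [CharZero R] (ξ : ratForms Lam (2 * a) →ₗ[ℚ] R), IsBQ Lam a ξ →
  ∀ (L : Type) [Field L] [NumberField L] (ι : L →+* ℂ), C.Splits ι →
  ∀ (T : ∀ j, C.K j) (Q : ℚ),
    (∀ (j : Fin (2 * a) → Fin C.r) (ψ : ∀ i, C.K (j i) →+* L),
      (∀ σ : L →+* ℂ, Nat.card {i // σ.comp (ψ i) ∈ C.Φ (j i)} = a) →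
      ∏ i, ψ i (T (j i)) = (Q : L)) →
  ActsBy C ξ T (Q : R)

/-- TT18: combinations of classes of ball quotients are Tate classes: `L`, `ι` from TC3, `B = ∅`, `N` from TT14,
`T = t^N`, `Q = N(P)^(naN)`, TT17. Uses TC3, TT14, TT17. -/
def TT18_stmt : Prop := ∀ (W : Type) [NormedAddCommGroup W] [NormedSpace ℂ W]
  [FiniteDimensional ℂ W] (Lam : AddSubgroup W), IsLattice Lam → ∀ (C : CMData W Lam) (a : ℕ)
  (R : Type) [Field R] [CharZero R] (ξ : ratForms Lam (2 * a) →ₗ[ℚ] R), IsBQ Lam a ξ →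
  IsTate C a ξ

/-- TT19: `TateCM_stmt` (TT12, TT18) and `TateOrd_stmt` (TT11, and TT15, TT17 for the converse). -/
def TT19_stmt : Prop := TateCM_stmt ∧ TateOrd_stmt

/-- TT20: `HodgeIff_stmt` (`HodgeCM_stmt`; conversely TB3, TB6, TT13 and linearity). -/
def TT20_stmt : Prop := HodgeIff_stmt

/-! ## E. Galois representations -/

/-- TTG1: Frobenius elements exist. A prime `Q` of the ring `S` of all algebraic integers of `Lbar` above `P`
(integral extension); `S / Q` is an algebraic closure (at least an algebraic extension) of the finite field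
`𝓞 L / P`; the decomposition group maps onto its automorphism group (Mathlib:
`Ideal.Quotient.stabilizerHom_surjective_of_profinite` or similar in `RingTheory/Invariant/Profinite.lean`, or
compactness from the finite Galois subextensions and `IsArithFrobAt`). Uses nothing. -/
def TTG1_stmt : Prop := ∀ (L : Type) [Field L] [NumberField L] (P : Ideal (𝓞 L)), P.IsPrime →
  P ≠ ⊥ → ∃ σ : AlgebraicClosure L ≃ₐ[L] AlgebraicClosure L, IsFrobAt P σ

/-- TTG2: the cyclotomic character of a Frobenius element. For a root of unity `ζ` of order `l^n`: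
`σ ζ - ζ^N(P) ∈ Q`; the product of all `1 - ζ'` over the `l^n`-th roots of unity `ζ' ≠ 1` is `l^n ∉ Q`, so
`σ ζ = ζ^N(P)`; `cyclotomicCharacter.spec`, `cyclotomicCharacter.toZModPow`, `PadicInt.ext_of_toZModPow`.
(See `AlgHom.IsArithFrobAt.apply_of_pow_eq_one`.) Uses nothing. -/
def TTG2_stmt : Prop := ∀ (L : Type) [Field L] [NumberField L] (P : Ideal (𝓞 L)), P.IsPrime →
  P ≠ ⊥ → ∀ (l : ℕ) [Fact l.Prime], (l : 𝓞 L) ∉ P →
  ∀ σ : AlgebraicClosure L ≃ₐ[L] AlgebraicClosure L, IsFrobAt P σ →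
    ((cyclotomicCharacter (AlgebraicClosure L) l σ.toRingEquiv : ℤ_[l]ˣ) : ℤ_[l]) =
      (Ideal.absNorm P : ℤ_[l])

/-- TTG3: comparison. A rational form `η` gives a `ℚ`-valued alternating form `α` on `∏ K_j` (TA2: the vector
of `W` with given coordinates in `∏ K_j` is in the rational span of `Lam`, and is unique, TA1), and `α` extends
uniquely to a `ℚ_l`-form on `∏ ℚ_l ⊗ K_j = ℚ_l ⊗ ∏ K_j` (bases). Uses TA1, TA2, TT1. -/
def TTG3_stmt : Prop := ∀ (W : Type) [NormedAddCommGroup W] [NormedSpace ℂ W]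
  [FiniteDimensional ℂ W] (Lam : AddSubgroup W), IsLattice Lam → ∀ (C : CMData W Lam) (k : ℕ)
  (l : ℕ) [Fact l.Prime], ∃ bc : ratForms Lam k →ₗ[ℚ] C.Hl l k,
  (∀ η : ratForms Lam k, Compat C l (η : W [⋀^Fin k]→ₗ[ℝ] ℝ) (bc η)) ∧
  (∀ (η : ratForms Lam k) (ω : C.Hl l k), Compat C l (η : W [⋀^Fin k]→ₗ[ℝ] ℝ) ω → ω = bc η) ∧
  (∀ (t : ∀ j, C.K j) (η η' : ratForms Lam k),
    (η' : W [⋀^Fin k]→ₗ[ℝ] ℝ) = C.pull t (η : W [⋀^Fin k]→ₗ[ℝ] ℝ) →
    bc η' = (bc η).compLinearMap (LinearMap.mulLeft ℚ_[l] fun j => (1 : ℚ_[l]) ⊗ₜ[ℚ] t j))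

/-- TTG4: `TateGal_stmt`. `ξ = Ξ ∘ bc` (TTG3). `P ∉ B`, not above `l`, with trivial stabiliser (TT4; only
finitely many primes contain `l`), `σ` a Frobenius at `P` (TTG1), so `ρ σ = t`, `χ(σ) = N(P)` (TTG2), hence
`ActsBy C ξ t (N(P)^a)`, TT6 with `n = 1` and TT11 with `N = 1`. Uses TT4, TT6, TT11, TTG1, TTG2, TTG3. -/
def TTG4_stmt : Prop := TateGal_stmt

end

end Pool.Agent.HC
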